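import Pool.Agent.L7h7.HP.Stm

/-!
# Project HP: the exponential inequality from mass and drift
-/

set_option autoImplicit false

open Finset Filter Topology

namespace Pool.Agent.L7h21.HP

theorem cube_le (X D : ℝ) : |X + D| ^ 3 ≤ |X| ^ 3 + 3 * X * |X| * D + 3 * |X| * D ^ 2 + |D| ^ 3 := by
  rcases le_total 0 X with hX | hX <;> rcases le_total 0 (X + D) with hXD | hXD <;>
    rcases le_total 0 D with hD | hD
  · rw [abs_of_nonneg hX, abs_of_nonneg hXD, abs_of_nonneg hD]; nlinarith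
  · rw [abs_of_nonneg hX, abs_of_nonneg hXD, abs_of_nonpos hD]
    nlinarith [pow_nonneg (neg_nonneg.2 hD) 3]
  · rw [abs_of_nonneg hX, abs_of_nonpos hXD, abs_of_nonneg hD]
    have h1 : X = 0 := by linarith
    have h2 : D = 0 := by linarith
    subst h1 h2; simp
  · rw [abs_of_nonneg hX, abs_of_nonpos hXD, abs_of_nonpos hD]
    have : 0 ≤ X * (X ^ 2 + 3 * X * D + 3 * D ^ 2) :=
      mul_nonneg hX (by nlinarith [sq_nonneg (X + 3 / 2 * D), sq_nonneg D])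
    nlinarith
  · rw [abs_of_nonpos hX, abs_of_nonneg hXD, abs_of_nonneg hD]
    have : 0 ≤ (-X) * (X ^ 2 + 3 * X * D + 3 * D ^ 2) :=
      mul_nonneg (by linarith) (by nlinarith [sq_nonneg (X + 3 / 2 * D), sq_nonneg D])
    nlinarith
  · rw [abs_of_nonpos hX, abs_of_nonneg hXD, abs_of_nonpos hD]
    have h1 : X = 0 := by linarith
    have h2 : D = 0 := by linarith
    subst h1 h2; simp
  · rw [abs_of_nonpos hX, abs_of_nonpos hXD, abs_of_nonneg hD]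
    nlinarith [pow_nonneg hD 3]
  · rw [abs_of_nonpos hX, abs_of_nonpos hXD, abs_of_nonpos hD]; nlinarith

/-- one coordinate: the negative cubic term beats the linear and the quadratic terms -/
theorem young (b A a r : ℝ) (hb : 1 ≤ b) (hA : 1 ≤ A) (ha : 0 ≤ a) (hr : 0 < r) (hr1 : r ≤ 1) :
    -(a ^ 3) / 16 + 3 * b ^ 2 * a * r ^ 2 + 3 * A * a ^ 2 * r ^ 2 ≤ (30 * b ^ 3 + 27648 * A ^ 3) * r ^ 3 := by
  have h1 : 3 * b ^ 2 * a * r ^ 2 ≤ a ^ 3 / 32 + 30 * b ^ 3 * r ^ 3 := by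
    rcases le_total a (10 * b * r) with h | h
    · have : 3 * b ^ 2 * a * r ^ 2 ≤ 3 * b ^ 2 * (10 * b * r) * r ^ 2 := by gcongr
      have h2 : 0 ≤ a ^ 3 / 32 := by positivity
      nlinarith
    · have h3 : (10 * b * r) ^ 2 ≤ a ^ 2 := by gcongr
      have h4 : (10 * b * r) ^ 2 * a ≤ a ^ 2 * a := by gcongr
      have h2 : 0 ≤ 30 * b ^ 3 * r ^ 3 := by positivity
      have h5 : 0 ≤ b ^ 2 * r ^ 2 * a := by positivity
      nlinarith
  have h2 : 3 * A * a ^ 2 * r ^ 2 ≤ a ^ 3 / 32 + 27648 * A ^ 3 * r ^ 3 := by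
    rcases le_total a (96 * A * r ^ 2) with h | h
    · have h6 : 3 * A * a ^ 2 * r ^ 2 ≤ 3 * A * (96 * A * r ^ 2) ^ 2 * r ^ 2 := by gcongr
      have h7 : 0 ≤ a ^ 3 / 32 := by positivity
      have h8 : r ^ 6 ≤ r ^ 3 := pow_le_pow_of_le_one hr.le hr1 (by norm_num)
      have h9 : 27648 * A ^ 3 * r ^ 6 ≤ 27648 * A ^ 3 * r ^ 3 := by gcongr
      nlinarith
    · have h4 : (96 * A * r ^ 2) * a ^ 2 ≤ a * a ^ 2 := by gcongr
      have h7 : 0 ≤ 27648 * A ^ 3 * r ^ 3 := by positivity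
      nlinarith
  linarith

/-- Chebyshev's sum inequality for three numbers -/
theorem cheb (a : Fin 3 → ℝ) (ha : ∀ k, 0 ≤ a k) : (∑ k, a k) * ∑ k, a k ^ 2 ≤ 3 * ∑ k, a k ^ 3 := by
  simp only [Fin.sum_univ_three]
  have h0 := ha 0; have h1 := ha 1; have h2 := ha 2
  nlinarith [mul_nonneg (add_nonneg h0 h1) (sq_nonneg (a 0 - a 1)),
    mul_nonneg (add_nonneg h0 h2) (sq_nonneg (a 0 - a 2)),
    mul_nonneg (add_nonneg h1 h2) (sq_nonneg (a 1 - a 2))]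

theorem s_COMB : Pool.Agent.L7h7.HP.S_COMB := by
  intro b A hb hA
  have hb0 : 0 < b := by linarith
  have hA0 : 0 < A := by linarith
  refine ⟨1 / (3000 * A * b ^ 6), 3 * (30 * b ^ 3 + 27648 * A ^ 3) + 3 * b ^ 3 + 360 * b ^ 6 + 2 * A,
    by positivity, by positivity, ?_⟩
  intro ρ hρ hρ₀ n hn ι _ w X Δ hw hX hΔ hmass hdrift
  have hx1 : (1 : ℝ) ≤ n := by exact_mod_cast hn
  generalize (n : ℝ) = x at hx1 hX hmass hdrift ⊢
  have hx0 : 0 < x := by linarith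
  obtain ⟨r, hr⟩ : ∃ r, r = 1 / √x := ⟨_, rfl⟩
  have hsx : 1 ≤ √x := Real.one_le_sqrt.2 hx1
  have hsx2 : √x ^ 2 = x := Real.sq_sqrt hx0.le
  have hr0 : 0 < r := by rw [hr]; positivity
  have hr1 : r ≤ 1 := by rw [hr, div_le_one (by linarith)]; exact hsx
  have hr2 : r ^ 2 = 1 / x := by rw [hr, div_pow, hsx2, one_pow]
  have hr3 : r ^ 3 = 1 / (x * √x) := by
    rw [hr, div_pow, one_pow]; congr 1; nlinarith
  have hr43 : r ^ 4 ≤ r ^ 3 := pow_le_pow_of_le_one hr0.le hr1 (by norm_num)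
  have hr63 : r ^ 6 ≤ r ^ 3 := pow_le_pow_of_le_one hr0.le hr1 (by norm_num)
  have hr21 : r ^ 2 ≤ 1 := pow_le_one₀ hr0.le hr1
  have hr41 : r ^ 4 ≤ 1 := pow_le_one₀ hr0.le hr1
  have hr31 : r ^ 3 ≤ 1 := pow_le_one₀ hr0.le hr1
  have hr61 : r ^ 6 ≤ 1 := pow_le_one₀ hr0.le hr1
  have hxr : x * r ^ 2 = 1 := by rw [hr2]; field_simp
  -- the coordinates
  obtain ⟨a, ha⟩ : ∃ a : Fin 3 → ℝ, a = fun k => |X k| / x := ⟨_, rfl⟩
  have ha0 : ∀ k, 0 ≤ a k := by intro k; rw [ha]; positivity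
  have hab : ∀ k, a k ≤ b := by
    intro k; rw [ha]; simp only; rw [div_le_iff₀ hx0]; exact hX k
  have hXa : ∀ k, |X k| = a k * x := by intro k; rw [ha]; field_simp
  obtain ⟨s, hs⟩ : ∃ s, s = ∑ k, a k ^ 3 := ⟨_, rfl⟩
  have hs0 : 0 ≤ s := by rw [hs]; exact Finset.sum_nonneg fun k _ => pow_nonneg (ha0 k) 3
  have hsb : s ≤ 3 * b ^ 3 := by
    rw [hs]
    calc ∑ k, a k ^ 3 ≤ ∑ _k : Fin 3, b ^ 3 :=
          Finset.sum_le_sum fun k _ => pow_le_pow_left₀ (ha0 k) (hab k) 3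
      _ = 3 * b ^ 3 := by simp
  have hT : ∑ k, |X k| ^ 3 = s * x ^ 3 := by
    rw [hs, Finset.sum_mul]; exact Finset.sum_congr rfl fun k _ => by rw [hXa, mul_pow]
  obtain ⟨f, hf⟩ : ∃ f, f = 1 / (x + 1) ^ 2 := ⟨_, rfl⟩
  have hf0 : 0 < f := by rw [hf]; positivity
  have hf1 : x ^ 2 * f ≤ 1 := by
    rw [hf, mul_one_div, div_le_one (by positivity)]; linarith
  have hf2 : x * f ≤ r ^ 2 := by
    have : x * f * x ≤ r ^ 2 * x := by linarith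
    exact le_of_mul_le_mul_right this hx0
  have hf4 : f ≤ r ^ 4 := by
    have h : f * x ^ 2 ≤ r ^ 4 * x ^ 2 := by
      have : r ^ 4 * x ^ 2 = (x * r ^ 2) ^ 2 := by ring
      rw [this, hxr]; linarith
    exact le_of_mul_le_mul_right h (by positivity)
  have hg0 : 0 ≤ x ^ 3 * (1 / x ^ 2 - f) := by
    rw [hf]
    have : x ^ 3 * (1 / x ^ 2 - 1 / (x + 1) ^ 2) = (2 * x ^ 2 + x) / (x + 1) ^ 2 := by field_simp; ring
    rw [this]; positivity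
  have hg2 : x ^ 3 * (1 / x ^ 2 - f) ≤ 2 := by
    rw [hf]
    have : x ^ 3 * (1 / x ^ 2 - 1 / (x + 1) ^ 2) = (2 * x ^ 2 + x) / (x + 1) ^ 2 := by field_simp; ring
    rw [this, div_le_iff₀ (by positivity)]; linarith
  have hg8 : 1 / 8 ≤ x ^ 3 * (1 / x ^ 2 - f - 3 * f / (2 * x)) := by
    rw [hf]
    have : x ^ 3 * (1 / x ^ 2 - 1 / (x + 1) ^ 2 - 3 * (1 / (x + 1) ^ 2) / (2 * x)) =
        (x ^ 2 / 2 + x) / (x + 1) ^ 2 := by field_simp; ring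
    rw [this, div_le_div_iff₀ (by norm_num) (by positivity)]; nlinarith
  -- the exponents
  obtain ⟨Y, hY⟩ : ∃ Y : ι → ℝ, Y = fun i => ρ * ∑ k, (-(|X k| ^ 3 * (1 / x ^ 2 - f)) +
      (3 * X k * |X k| * Δ i k + 3 * |X k| * b ^ 2 + b ^ 3) * f) := ⟨_, rfl⟩
  have step1 : ∀ i, ρ * (∑ k, |X k + Δ i k| ^ 3) / (x + 1) ^ 2 ≤
      ρ * (∑ k, |X k| ^ 3) / x ^ 2 + Y i := by
    intro i
    have h1 : ρ * (∑ k, |X k + Δ i k| ^ 3) / (x + 1) ^ 2 = ρ * ∑ k, |X k + Δ i k| ^ 3 * f := by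
      rw [← Finset.sum_mul, hf]; ring
    have h2 : ρ * (∑ k, |X k| ^ 3) / x ^ 2 + Y i = ρ * ∑ k, (|X k| ^ 3 / x ^ 2 +
        (-(|X k| ^ 3 * (1 / x ^ 2 - f)) +
        (3 * X k * |X k| * Δ i k + 3 * |X k| * b ^ 2 + b ^ 3) * f)) := by
      rw [hY, Finset.sum_add_distrib, ← Finset.sum_div]; ring
    rw [h1, h2]
    refine mul_le_mul_of_nonneg_left (Finset.sum_le_sum fun k _ => ?_) hρ.le
    have h3 := cube_le (X k) (Δ i k)
    have h4 : Δ i k ^ 2 ≤ b ^ 2 := by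
      rw [← sq_abs]; exact pow_le_pow_left₀ (abs_nonneg _) (hΔ i k) 2
    have h5 : |Δ i k| ^ 3 ≤ b ^ 3 := pow_le_pow_left₀ (abs_nonneg _) (hΔ i k) 3
    have h6 : |X k + Δ i k| ^ 3 ≤ |X k| ^ 3 + 3 * X k * |X k| * Δ i k + 3 * |X k| * b ^ 2 + b ^ 3 := by
      have : 3 * |X k| * Δ i k ^ 2 ≤ 3 * |X k| * b ^ 2 := by gcongr
      linarith
    calc |X k + Δ i k| ^ 3 * f ≤ (|X k| ^ 3 + 3 * X k * |X k| * Δ i k + 3 * |X k| * b ^ 2 + b ^ 3) * f := by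
          gcongr
      _ = _ := by ring
  obtain ⟨Z, hZ⟩ : ∃ Z : Fin 3 → ℝ, Z = fun k =>
    2 * a k ^ 3 + 3 * b * a k ^ 2 + 3 * b ^ 2 * a k * r ^ 2 + b ^ 3 * r ^ 4 := ⟨_, rfl⟩
  have hZ0 : ∀ k, 0 ≤ Z k := by intro k; rw [hZ]; have := ha0 k; positivity
  have hZ9 : ∀ k, Z k ≤ 9 * b ^ 3 := by
    intro k
    rw [hZ]
    have h0 := ha0 k
    have h1 := hab k
    have e1 : a k ^ 3 ≤ b ^ 3 := by gcongr
    have e2 : b * a k ^ 2 ≤ b * b ^ 2 := by gcongr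
    have e3 : b ^ 2 * a k * r ^ 2 ≤ b ^ 2 * b * 1 := by gcongr
    have e4 : b ^ 3 * r ^ 4 ≤ b ^ 3 * 1 := by gcongr
    simp only; linarith
  have hD : ∀ k, |-(|X k| ^ 3 * (1 / x ^ 2 - f)) + (3 * |X k| * b ^ 2 + b ^ 3) * f| ≤
      2 * a k ^ 3 + 3 * b ^ 2 * a k * r ^ 2 + b ^ 3 * r ^ 4 := by
    intro k
    have h0 := ha0 k
    rw [hXa]
    have e1 : (a k * x) ^ 3 * (1 / x ^ 2 - f) = a k ^ 3 * (x ^ 3 * (1 / x ^ 2 - f)) := by ring
    have e2 : (3 * (a k * x) * b ^ 2 + b ^ 3) * f = 3 * a k * b ^ 2 * (x * f) + b ^ 3 * f := by ring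
    rw [e1, e2]
    have e3 : 0 ≤ a k ^ 3 * (x ^ 3 * (1 / x ^ 2 - f)) := mul_nonneg (by positivity) hg0
    have e4 : a k ^ 3 * (x ^ 3 * (1 / x ^ 2 - f)) ≤ a k ^ 3 * 2 := by gcongr
    have e5 : 3 * a k * b ^ 2 * (x * f) ≤ 3 * a k * b ^ 2 * r ^ 2 := by gcongr
    have e6 : b ^ 3 * f ≤ b ^ 3 * r ^ 4 := by gcongr
    have e7 : 0 ≤ 3 * a k * b ^ 2 * (x * f) := by positivity
    have e8 : 0 ≤ b ^ 3 * f := by positivity
    rw [abs_le]; constructor <;> linarith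
  have hL : ∀ i k, |3 * X k * |X k| * Δ i k * f| ≤ 3 * b * a k ^ 2 := by
    intro i k
    have h0 := ha0 k
    rw [abs_mul, abs_mul, abs_mul, abs_mul, abs_abs, abs_of_pos hf0, hXa]
    rw [abs_of_pos (by norm_num : (0:ℝ) < 3)]
    calc 3 * (a k * x) * (a k * x) * |Δ i k| * f = 3 * a k ^ 2 * |Δ i k| * (x ^ 2 * f) := by ring
      _ ≤ 3 * a k ^ 2 * b * 1 := by have := hΔ i k; gcongr
      _ = _ := by ring
  have step2 : ∀ i, |Y i| ≤ ρ * ∑ k, Z k := by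
    intro i
    rw [hY]
    simp only
    rw [abs_mul, abs_of_pos hρ]
    refine mul_le_mul_of_nonneg_left ((Finset.abs_sum_le_sum_abs _ _).trans
      (Finset.sum_le_sum fun k _ => ?_)) hρ.le
    have h1 := hD k
    have h2 := hL i k
    have e : -(|X k| ^ 3 * (1 / x ^ 2 - f)) + (3 * X k * |X k| * Δ i k + 3 * |X k| * b ^ 2 + b ^ 3) * f =
      (-(|X k| ^ 3 * (1 / x ^ 2 - f)) + (3 * |X k| * b ^ 2 + b ^ 3) * f) +
        3 * X k * |X k| * Δ i k * f := by ring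
    rw [e]
    refine (abs_add_le _ _).trans ?_
    rw [hZ]; simp only; linarith
  have hZs : ∑ k, Z k ≤ 27 * b ^ 3 := by
    calc ∑ k, Z k ≤ ∑ _k : Fin 3, 9 * b ^ 3 := Finset.sum_le_sum fun k _ => hZ9 k
      _ = 27 * b ^ 3 := by simp; ring
  have hZs0 : 0 ≤ ∑ k, Z k := Finset.sum_nonneg fun k _ => hZ0 k
  -- small rho
  have hb6 : 1 ≤ b ^ 6 := one_le_pow₀ hb
  have hb3 : 1 ≤ b ^ 3 := one_le_pow₀ hb
  have hb36 : b ^ 3 ≤ b ^ 6 := pow_le_pow_right₀ hb (by norm_num)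
  have hρ' : ρ * (3000 * A * b ^ 6) ≤ 1 := by rwa [le_div_iff₀ (by positivity)] at hρ₀
  have hρA : ρ * A * b ^ 6 ≤ 1 / 3000 := by linarith
  have hρA1 : ρ * A ≤ 1 / 3000 := by
    have : ρ * A * 1 ≤ ρ * A * b ^ 6 := by gcongr
    linarith
  have hρb6 : ρ * b ^ 6 ≤ 1 / 3000 := by
    have : ρ * 1 * b ^ 6 ≤ ρ * A * b ^ 6 := by gcongr
    linarith
  have hρb3 : ρ * b ^ 3 ≤ 1 / 3000 := by
    have : ρ * b ^ 3 ≤ ρ * b ^ 6 := by gcongr
    linarith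
  have hρ1 : ρ ≤ 1 / 3000 := by
    have : ρ * 1 ≤ ρ * b ^ 6 := by gcongr
    linarith
  have hY1 : ∀ i, |Y i| ≤ 1 := by
    intro i
    refine (step2 i).trans ?_
    have : ρ * ∑ k, Z k ≤ ρ * (27 * b ^ 3) := by gcongr
    linarith
  obtain ⟨B, hB⟩ : ∃ B, B = 156 * b ^ 3 * s + 360 * b ^ 6 * r ^ 4 := ⟨_, rfl⟩
  have hB0 : 0 ≤ B := by rw [hB]; positivity
  have hZ2 : (∑ k, Z k) ^ 2 ≤ B := by
    have h1 : (∑ k, Z k) ^ 2 ≤ 3 * ∑ k, Z k ^ 2 := by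
      simp only [Fin.sum_univ_three]
      nlinarith [sq_nonneg (Z 0 - Z 1), sq_nonneg (Z 0 - Z 2), sq_nonneg (Z 1 - Z 2)]
    have h2 : ∀ k, Z k ^ 2 ≤ 52 * b ^ 3 * a k ^ 3 + 40 * b ^ 6 * r ^ 4 := by
      intro k
      have h0 := ha0 k
      have h1 := hab k
      have e0 : Z k ^ 2 ≤ 4 * ((2 * a k ^ 3) ^ 2 + (3 * b * a k ^ 2) ^ 2 + (3 * b ^ 2 * a k * r ^ 2) ^ 2 +
          (b ^ 3 * r ^ 4) ^ 2) := by
        rw [hZ]; simp only
        generalize 2 * a k ^ 3 = y1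
        generalize 3 * b * a k ^ 2 = y2
        generalize 3 * b ^ 2 * a k * r ^ 2 = y3
        generalize b ^ 3 * r ^ 4 = y4
        nlinarith [sq_nonneg (y1 - y2), sq_nonneg (y1 - y3), sq_nonneg (y1 - y4), sq_nonneg (y2 - y3),
          sq_nonneg (y2 - y4), sq_nonneg (y3 - y4)]
      have e1 : (2 * a k ^ 3) ^ 2 ≤ 4 * b ^ 3 * a k ^ 3 := by
        have : a k ^ 3 * a k ^ 3 ≤ b ^ 3 * a k ^ 3 := by gcongr
        linarith
      have e2 : (3 * b * a k ^ 2) ^ 2 ≤ 9 * b ^ 3 * a k ^ 3 := by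
        have : a k * (b ^ 2 * a k ^ 3) ≤ b * (b ^ 2 * a k ^ 3) := by gcongr
        linarith
      have e3 : (3 * b ^ 2 * a k * r ^ 2) ^ 2 ≤ 9 * b ^ 6 * r ^ 4 := by
        have : a k ^ 2 * (b ^ 4 * r ^ 4) ≤ b ^ 2 * (b ^ 4 * r ^ 4) := by gcongr
        linarith
      have e4 : (b ^ 3 * r ^ 4) ^ 2 ≤ b ^ 6 * r ^ 4 := by
        have : r ^ 4 * (b ^ 6 * r ^ 4) ≤ 1 * (b ^ 6 * r ^ 4) := by gcongr
        linarith
      linarith
    calc (∑ k, Z k) ^ 2 ≤ 3 * ∑ k, Z k ^ 2 := h1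
      _ ≤ 3 * ∑ k, (52 * b ^ 3 * a k ^ 3 + 40 * b ^ 6 * r ^ 4) := by
          gcongr with k _; exact h2 k
      _ = B := by
          rw [Finset.sum_add_distrib, ← Finset.mul_sum, ← hs, hB]; simp; ring
  have hY2 : ∀ i, Y i ^ 2 ≤ ρ ^ 2 * B := by
    intro i
    calc Y i ^ 2 = |Y i| ^ 2 := (sq_abs _).symm
      _ ≤ (ρ * ∑ k, Z k) ^ 2 := pow_le_pow_left₀ (abs_nonneg _) (step2 i) 2
      _ = ρ ^ 2 * (∑ k, Z k) ^ 2 := by ring
      _ ≤ ρ ^ 2 * B := by gcongr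
  -- the decomposition Y = D + L
  obtain ⟨D, hDd⟩ : ∃ D, D = ρ * ∑ k, (-(|X k| ^ 3 * (1 / x ^ 2 - f)) + (3 * |X k| * b ^ 2 + b ^ 3) * f) :=
    ⟨_, rfl⟩
  have hYD : ∀ i, Y i = D + ρ * ∑ k, 3 * X k * |X k| * f * Δ i k := by
    intro i
    rw [hY, hDd, ← mul_add, ← Finset.sum_add_distrib]
    simp only
    congr 1
    exact Finset.sum_congr rfl fun k _ => by ring
  have hDabs : |D| ≤ 18 * b ^ 3 * ρ := by
    rw [hDd, abs_mul, abs_of_pos hρ]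
    have h1 : |∑ k, (-(|X k| ^ 3 * (1 / x ^ 2 - f)) + (3 * |X k| * b ^ 2 + b ^ 3) * f)| ≤ 18 * b ^ 3 := by
      refine (Finset.abs_sum_le_sum_abs _ _).trans ?_
      calc ∑ k, |-(|X k| ^ 3 * (1 / x ^ 2 - f)) + (3 * |X k| * b ^ 2 + b ^ 3) * f| ≤
            ∑ _k : Fin 3, 6 * b ^ 3 := by
              refine Finset.sum_le_sum fun k _ => (hD k).trans ?_
              have h0 := ha0 k
              have h1 := hab k
              have e1 : a k ^ 3 ≤ b ^ 3 := by gcongr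
              have e3 : b ^ 2 * a k * r ^ 2 ≤ b ^ 2 * b * 1 := by gcongr
              have e4 : b ^ 3 * r ^ 4 ≤ b ^ 3 * 1 := by gcongr
              linarith
        _ = 18 * b ^ 3 := by simp; ring
    nlinarith
  obtain ⟨W, hW⟩ : ∃ W, W = ∑ i, w i := ⟨_, rfl⟩
  have hω : |W - 1| ≤ A * ρ ^ 2 * (s + r ^ 6) := by
    rw [hW]
    refine hmass.trans (le_of_eq ?_)
    rw [hT]
    have : r ^ 6 = 1 / x ^ 3 := by
      have : r ^ 6 = (r ^ 2) ^ 3 := by ring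
      rw [this, hr2, div_pow, one_pow]
    rw [this]; field_simp
  have hL2 : ∑ i, w i * (ρ * ∑ k, 3 * X k * |X k| * f * Δ i k) ≤
      ρ * ∑ k, (|X k| ^ 3 * (3 * f / (2 * x)) + 3 * f * |X k| ^ 2 * (A * (ρ * ∑ k', |X k'| + 1) / x)) := by
    have e : ∑ i, w i * (ρ * ∑ k, 3 * X k * |X k| * f * Δ i k) =
        ρ * ∑ k, 3 * X k * |X k| * f * ∑ i, w i * Δ i k := by
      rw [Finset.mul_sum]
      simp_rw [Finset.mul_sum]
      rw [Finset.sum_comm]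
      refine Finset.sum_congr rfl fun k _ => Finset.sum_congr rfl fun i _ => ?_
      ring
    rw [e]
    refine mul_le_mul_of_nonneg_left (Finset.sum_le_sum fun k _ => ?_) hρ.le
    have h1 := hdrift k
    obtain ⟨E, hE⟩ : ∃ E, E = A * (ρ * ∑ k', |X k'| + 1) / x := ⟨_, rfl⟩
    rw [← hE] at h1 ⊢
    have h2 : ∑ i, w i * Δ i k = X k / (2 * x) + (∑ i, w i * Δ i k - X k / (2 * x)) := by ring
    rw [h2]
    generalize (∑ i, w i * Δ i k - X k / (2 * x)) = t at h1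
    have h3 : 3 * X k * |X k| * f * t ≤ 3 * f * |X k| ^ 2 * E := by
      calc 3 * X k * |X k| * f * t ≤ |3 * X k * |X k| * f * t| := le_abs_self _
        _ = 3 * f * |X k| ^ 2 * |t| := by
            rw [abs_mul, abs_mul, abs_mul, abs_mul, abs_abs, abs_of_pos hf0,
              abs_of_pos (by norm_num : (0:ℝ) < 3)]; ring
        _ ≤ 3 * f * |X k| ^ 2 * E := by gcongr
    have h4 : 3 * X k * |X k| * f * (X k / (2 * x)) = |X k| ^ 3 * (3 * f / (2 * x)) := by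
      have : X k * X k = |X k| ^ 2 := by rw [sq_abs]; ring
      calc 3 * X k * |X k| * f * (X k / (2 * x)) = (X k * X k) * |X k| * (3 * f / (2 * x)) := by ring
        _ = _ := by rw [this]; ring
    rw [mul_add, h4]; linarith
  -- D + L
  have hDL : D + ∑ i, w i * (ρ * ∑ k, 3 * X k * |X k| * f * Δ i k) ≤
      ρ * (∑ k, (-(a k ^ 3) / 8 + 3 * b ^ 2 * a k * r ^ 2 + 3 * A * a k ^ 2 * r ^ 2) +
        3 * b ^ 3 * r ^ 4 + 9 * A * ρ * s) := by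
    have h1 : D + ∑ i, w i * (ρ * ∑ k, 3 * X k * |X k| * f * Δ i k) ≤
        ρ * ∑ k, (-(|X k| ^ 3 * (1 / x ^ 2 - f - 3 * f / (2 * x))) + (3 * |X k| * b ^ 2 + b ^ 3) * f +
          3 * f * |X k| ^ 2 * (A * (ρ * ∑ k', |X k'| + 1) / x)) := by
      calc D + ∑ i, w i * (ρ * ∑ k, 3 * X k * |X k| * f * Δ i k) ≤ D + ρ * ∑ k, (|X k| ^ 3 *
            (3 * f / (2 * x)) + 3 * f * |X k| ^ 2 * (A * (ρ * ∑ k', |X k'| + 1) / x)) := by
              linarith [hL2]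
        _ = _ := by
            rw [hDd, ← mul_add, ← Finset.sum_add_distrib]
            congr 1
            exact Finset.sum_congr rfl fun k _ => by ring
    refine h1.trans (mul_le_mul_of_nonneg_left ?_ hρ.le)
    have h2 : ∑ k', |X k'| = x * ∑ k', a k' := by
      rw [Finset.mul_sum]; exact Finset.sum_congr rfl fun k _ => by rw [hXa]; ring
    have h3 : ∀ k, -(|X k| ^ 3 * (1 / x ^ 2 - f - 3 * f / (2 * x))) + (3 * |X k| * b ^ 2 + b ^ 3) * f +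
          3 * f * |X k| ^ 2 * (A * (ρ * ∑ k', |X k'| + 1) / x) ≤
        (-(a k ^ 3) / 8 + 3 * b ^ 2 * a k * r ^ 2 + 3 * A * a k ^ 2 * r ^ 2) + b ^ 3 * r ^ 4 +
          3 * A * ρ * (∑ k', a k') * a k ^ 2 := by
      intro k
      have h0 := ha0 k
      have hs1 : 0 ≤ ∑ k', a k' := Finset.sum_nonneg fun k _ => ha0 k
      rw [h2, hXa]
      have e1 : (a k * x) ^ 3 * (1 / x ^ 2 - f - 3 * f / (2 * x)) =
        a k ^ 3 * (x ^ 3 * (1 / x ^ 2 - f - 3 * f / (2 * x))) := by ring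
      have e2 : (3 * (a k * x) * b ^ 2 + b ^ 3) * f = 3 * a k * b ^ 2 * (x * f) + b ^ 3 * f := by ring
      have e3 : 3 * f * (a k * x) ^ 2 * (A * (ρ * (x * ∑ k', a k') + 1) / x) =
          (x ^ 2 * f) * (3 * A * a k ^ 2 * (ρ * ∑ k', a k' + r ^ 2)) := by
        rw [hr2]; field_simp
      rw [e1, e2, e3]
      have e4 : a k ^ 3 * (1 / 8) ≤ a k ^ 3 * (x ^ 3 * (1 / x ^ 2 - f - 3 * f / (2 * x))) := by gcongr
      have e5 : 3 * a k * b ^ 2 * (x * f) ≤ 3 * a k * b ^ 2 * r ^ 2 := by gcongr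
      have e6 : b ^ 3 * f ≤ b ^ 3 * r ^ 4 := by gcongr
      have e7 : (x ^ 2 * f) * (3 * A * a k ^ 2 * (ρ * ∑ k', a k' + r ^ 2)) ≤
          1 * (3 * A * a k ^ 2 * (ρ * ∑ k', a k' + r ^ 2)) := by gcongr
      linarith
    refine (Finset.sum_le_sum fun k _ => h3 k).trans ?_
    have h4 := cheb a ha0
    rw [← hs] at h4
    have h5 : ∑ _k : Fin 3, b ^ 3 * r ^ 4 = 3 * b ^ 3 * r ^ 4 := by simp; ring
    have h6 : 3 * A * ρ * ((∑ k', a k') * ∑ k, a k ^ 2) ≤ 3 * A * ρ * (3 * s) := by gcongr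
    have h7 : ∑ k, 3 * A * ρ * (∑ k', a k') * a k ^ 2 = 3 * A * ρ * ((∑ k', a k') * ∑ k, a k ^ 2) := by
      rw [← Finset.mul_sum]; ring
    rw [Finset.sum_add_distrib, Finset.sum_add_distrib, h5, h7]
    linarith
  -- the mean of 1 + Y + Y^2
  have hmean : ∑ i, w i * Real.exp (Y i) ≤ 1 + (3 * (30 * b ^ 3 + 27648 * A ^ 3) + 3 * b ^ 3 +
      360 * b ^ 6 + 2 * A) * ρ * r ^ 3 := by
    have h1 : ∀ i, Real.exp (Y i) ≤ 1 + D + ρ ^ 2 * B + ρ * ∑ k, 3 * X k * |X k| * f * Δ i k := by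
      intro i
      have := Real.abs_exp_sub_one_sub_id_le (hY1 i)
      have h2 := (abs_le.1 this).2
      have h3 := hY2 i
      have h4 := hYD i
      linarith
    have h2 : ∑ i, w i * Real.exp (Y i) ≤ W * (1 + D + ρ ^ 2 * B) +
        ∑ i, w i * (ρ * ∑ k, 3 * X k * |X k| * f * Δ i k) := by
      calc ∑ i, w i * Real.exp (Y i) ≤ ∑ i, w i * (1 + D + ρ ^ 2 * B +
            ρ * ∑ k, 3 * X k * |X k| * f * Δ i k) :=
              Finset.sum_le_sum fun i _ => mul_le_mul_of_nonneg_left (h1 i) (hw i)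
        _ = _ := by
            rw [hW, Finset.sum_mul, ← Finset.sum_add_distrib]
            exact Finset.sum_congr rfl fun i _ => by ring
    have hBb : B ≤ 828 * b ^ 6 := by
      rw [hB]
      have e1 : 156 * b ^ 3 * s ≤ 156 * b ^ 3 * (3 * b ^ 3) := by gcongr
      have e2 : 360 * b ^ 6 * r ^ 4 ≤ 360 * b ^ 6 * 1 := by gcongr
      linarith
    have hρB : ρ ^ 2 * B ≤ 1 / 2 := by
      have e1 : ρ ^ 2 * B ≤ ρ ^ 2 * (828 * b ^ 6) := by gcongr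
      have e2 : ρ * (ρ * b ^ 6) ≤ ρ * (1 / 3000) := by gcongr
      linarith
    have h3 : |1 + D + ρ ^ 2 * B| ≤ 2 := by
      have := abs_le.1 hDabs
      have e0 : 0 ≤ ρ ^ 2 * B := by positivity
      rw [abs_le]; constructor <;> linarith
    have h4 : (W - 1) * (1 + D + ρ ^ 2 * B) ≤ 2 * (A * ρ ^ 2 * (s + r ^ 6)) := by
      calc (W - 1) * (1 + D + ρ ^ 2 * B) ≤ |(W - 1) * (1 + D + ρ ^ 2 * B)| := le_abs_self _
        _ = |W - 1| * |1 + D + ρ ^ 2 * B| := abs_mul _ _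
        _ ≤ (A * ρ ^ 2 * (s + r ^ 6)) * 2 := by gcongr
        _ = _ := by ring
    have h5 : ∑ k, (-(a k ^ 3) / 8 + 3 * b ^ 2 * a k * r ^ 2 + 3 * A * a k ^ 2 * r ^ 2) ≤
        -s / 16 + 3 * (30 * b ^ 3 + 27648 * A ^ 3) * r ^ 3 := by
      have e1 : ∀ k, -(a k ^ 3) / 8 + 3 * b ^ 2 * a k * r ^ 2 + 3 * A * a k ^ 2 * r ^ 2 ≤
          -(1 / 16) * a k ^ 3 + (30 * b ^ 3 + 27648 * A ^ 3) * r ^ 3 := by
        intro k
        have := young b A (a k) r hb hA (ha0 k) hr0 hr1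
        linarith
      refine (Finset.sum_le_sum fun k _ => e1 k).trans (le_of_eq ?_)
      rw [Finset.sum_add_distrib, ← Finset.mul_sum, ← hs]; simp; ring
    have h6 : W * (1 + D + ρ ^ 2 * B) = 1 + D + ρ ^ 2 * B + (W - 1) * (1 + D + ρ ^ 2 * B) := by ring
    have h7 : ρ * ∑ k, (-(a k ^ 3) / 8 + 3 * b ^ 2 * a k * r ^ 2 + 3 * A * a k ^ 2 * r ^ 2) ≤
        ρ * (-s / 16 + 3 * (30 * b ^ 3 + 27648 * A ^ 3) * r ^ 3) := by gcongr
    have h8 : ρ * (s * (11 * (ρ * A) + 156 * (ρ * b ^ 3))) ≤ ρ * (s * (1 / 16)) := by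
      have : 11 * (ρ * A) + 156 * (ρ * b ^ 3) ≤ 1 / 16 := by linarith
      gcongr
    have h9 : ρ * (3 * b ^ 3 * r ^ 4) ≤ ρ * (3 * b ^ 3 * r ^ 3) := by gcongr
    have h10 : ρ ^ 2 * (360 * b ^ 6 * r ^ 4) ≤ ρ * (360 * b ^ 6 * r ^ 3) := by
      have : ρ * (ρ * (360 * b ^ 6 * r ^ 4)) ≤ ρ * (1 * (360 * b ^ 6 * r ^ 3)) := by
        have : ρ ≤ 1 := by linarith
        gcongr
      linarith
    have h11 : 2 * (A * ρ ^ 2 * r ^ 6) ≤ ρ * (2 * A * r ^ 3) := by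
      have : ρ * (ρ * (2 * A * r ^ 6)) ≤ ρ * (1 * (2 * A * r ^ 3)) := by
        have : ρ ≤ 1 := by linarith
        gcongr
      linarith
    have h12 : ρ ^ 2 * B = ρ * (s * (156 * (ρ * b ^ 3))) + ρ ^ 2 * (360 * b ^ 6 * r ^ 4) := by
      rw [hB]; ring
    have h13 := hDL
    generalize (∑ k, (-(a k ^ 3) / 8 + 3 * b ^ 2 * a k * r ^ 2 + 3 * A * a k ^ 2 * r ^ 2)) = S at h5 h7 h13
    generalize (∑ i, w i * (ρ * ∑ k, 3 * X k * |X k| * f * Δ i k)) = L at h2 h13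
    clear hDL hYD hL2 hDabs hY2 hZ2 hBb hB hB0 h1 h3 hω hD hL hZ9 hZ hY step1 step2 hmass hdrift hT hs
    linarith
  calc ∑ i, w i * Real.exp (ρ * (∑ k, |X k + Δ i k| ^ 3) / (x + 1) ^ 2) ≤
        ∑ i, w i * (Real.exp (ρ * (∑ k, |X k| ^ 3) / x ^ 2) * Real.exp (Y i)) := by
          refine Finset.sum_le_sum fun i _ => mul_le_mul_of_nonneg_left ?_ (hw i)
          rw [← Real.exp_add]
          exact Real.exp_le_exp.2 (step1 i)
    _ = Real.exp (ρ * (∑ k, |X k| ^ 3) / x ^ 2) * ∑ i, w i * Real.exp (Y i) := by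
          generalize Real.exp (ρ * (∑ k, |X k| ^ 3) / x ^ 2) = e0
          rw [Finset.mul_sum]; exact Finset.sum_congr rfl fun i _ => by ring
    _ ≤ Real.exp (ρ * (∑ k, |X k| ^ 3) / x ^ 2) * Real.exp ((3 * (30 * b ^ 3 + 27648 * A ^ 3) +
          3 * b ^ 3 + 360 * b ^ 6 + 2 * A) * ρ * r ^ 3) := by
          gcongr
          refine hmean.trans ?_
          rw [add_comm]
          exact Real.add_one_le_exp _
    _ = _ := by
          rw [← Real.exp_add, hr3]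
          congr 1
          ring

end Pool.Agent.L7h21.HP
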